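import Mathlib

/-!
# The weak Lipschitz Baumgartner axioms imply `2 ^ ℵ₀ = 2 ^ ℵ₁`

We prove in ZFC that each of `BA_Lip(ω^ω)` and `BA_Lip(2^ω)` implies `2 ^ ℵ₀ = 2 ^ ℵ₁`.

Proof. The tree of all `0`-`1` sequences of countable length has `2 ^ ℵ₀` nodes and `2 ^ ℵ₁` branches
of length `ω₁`. Coding the nodes by points of the space one gets, for each branch `s`, an
`ℵ₁`-dense set `B s`, such that `B s ∩ B t` is countable for `s ≠ t`. Fix an `ℵ₁`-dense set `A`. By
the axiom there is for each `s` a Lipschitz function `f s` which is injective on `A` and maps `A`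
into `B s`. If `f s = f t`, then the uncountable set `f s '' A` is included in `B s ∩ B t`, and so
`s = t`. Hence there are `2 ^ ℵ₁` many Lipschitz functions; but there are only `2 ^ ℵ₀` many.
-/

set_option autoImplicit false

open Set Cardinal

namespace Pool.Agent.Results.MP_84ba36_lc.LipPowers

/-- `A ⊆ Z` is `ℵ₁`-dense: `|A ∩ U| = ℵ₁` for every nonempty open set `U`. -/
def AlephOneDense {Z : Type} [TopologicalSpace Z] (A : Set Z) : Prop :=
  ∀ U : Set Z, IsOpen U → U.Nonempty → #(A ∩ U : Set Z) = ℵ₁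

/-- `f` is Lipschitz with constant `1`: `f x` and `f y` agree below `k` if `x` and `y` do. -/
def IsLip {α : Type} (f : (ℕ → α) → ℕ → α) : Prop :=
  ∀ (k : ℕ) (x y : ℕ → α), (∀ i < k, x i = y i) → ∀ i < k, f x i = f y i

/-- The axiom `BA_Lip(Z)` for the space `Z` of all functions from `ω` to the discrete space `α`:
for all `ℵ₁`-dense `A, B ⊆ Z` there is a Lipschitz function `f : Z → Z` such that the restriction of
`f` to `A` is injective and `f[A] ⊆ B`. -/
def BALip (α : Type) [TopologicalSpace α] : Prop :=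
  ∀ A B : Set (ℕ → α), AlephOneDense A → AlephOneDense B →
    ∃ f : (ℕ → α) → ℕ → α, IsLip f ∧ InjOn f A ∧ f '' A ⊆ B

/-! ### Injective choice functions -/

theorem exists_injective_choice {ι Z : Type} (S : ι → Set Z) (h : ∀ i, #ι ≤ #(S i)) :
    ∃ π : ι → Z, Function.Injective π ∧ ∀ i, π i ∈ S i := by
  classical
  obtain ⟨e⟩ : Nonempty (ι ≃ (#ι).ord.ToType) := by
    rw [← Cardinal.eq, mk_ord_toType]
  have hlt : ∀ i : (#ι).ord.ToType, #(Iio i) < #ι := fun i => mk_Iio_toType_ord_lt i
  have key : ∀ (i : (#ι).ord.ToType) (g : (j : (#ι).ord.ToType) → j < i → Z),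
      ∃ z ∈ S (e.symm i), ∀ (j : (#ι).ord.ToType) (hj : j < i), g j hj ≠ z := by
    intro i g
    by_contra hcon
    push Not at hcon
    have h1 : S (e.symm i) ⊆ range fun j : Iio i => g j.1 j.2 := by
      intro z hz
      obtain ⟨j, hj, hjz⟩ := hcon z hz
      exact ⟨⟨j, hj⟩, hjz⟩
    have h2 : #(S (e.symm i)) ≤ #(Iio i) := (mk_le_mk_of_subset h1).trans mk_range_le
    exact absurd ((h _).trans h2) (not_le.2 (hlt i))
  choose c hc hc' using key
  let wf : WellFounded fun a b : (#ι).ord.ToType => a < b := wellFounded_lt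
  let π : (#ι).ord.ToType → Z := wf.fix fun i g => c i g
  have hπ : ∀ i, π i = c i fun j _ => π j := fun i => wf.fix_eq _ i
  have hinj : Function.Injective π := by
    have aux : ∀ i j, j < i → π j ≠ π i := by
      intro i j hji h
      have h2 := hc' i (fun j _ => π j) j hji
      rw [← hπ i] at h2
      exact h2 h
    intro i j hij
    rcases lt_trichotomy i j with h | h | h
    · exact absurd hij (aux j i h)
    · exact h
    · exact absurd hij.symm (aux i j h)
  refine ⟨fun i => π (e i), hinj.comp e.injective, fun i => ?_⟩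
  have h1 := hc (e i) fun j _ => π j
  rw [← hπ (e i), e.symm_apply_apply] at h1
  exact h1

/-! ### Nodes and branches -/

/-- the well-ordered set `ω₁` -/
abbrev W : Type := (ℵ₁ : Cardinal.{0}).ord.ToType

theorem mk_W : #W = ℵ₁ := mk_ord_toType _

theorem countable_Iio (δ : W) : (Iio δ).Countable := by
  rw [← le_aleph0_iff_set_countable, ← Order.lt_succ_iff, succ_aleph0]
  exact mk_Iio_toType_ord_lt δ

theorem countable_Iic (δ : W) : (Iic δ).Countable := by
  rw [← Iio_insert]
  exact (countable_Iio δ).insert δ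

/-- the nodes of the tree of countable `0`-`1` sequences -/
abbrev Node : Type := Σ δ : W, (Iio δ → Bool)

theorem mk_node_le : #Node ≤ 𝔠 := by
  rw [mk_sigma]
  refine (sum_le_sum (fun δ : W => #(Iio δ → Bool)) (fun _ => 𝔠) fun δ => ?_).trans ?_
  · have h := (countable_Iio δ).le_aleph0
    calc #(Iio δ → Bool) = 2 ^ #(Iio δ) := by simp
      _ ≤ 2 ^ ℵ₀ := Cardinal.power_le_power_left two_ne_zero h
      _ = 𝔠 := two_power_aleph0
  · rw [sum_const', mk_W]
    exact (mul_le_mul' aleph_one_le_continuum le_rfl).trans continuum_mul_self.le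

/-- the node of the branch `s` of length `δ` -/
def node (s : W → Bool) (δ : W) : Node := ⟨δ, fun i => s i.1⟩

theorem node_inj {s t : W → Bool} {δ ε : W} (h : node s δ = node t ε) :
    δ = ε ∧ ∀ i < δ, s i = t i := by
  have h1 : δ = ε := congrArg Sigma.fst h
  subst h1
  refine ⟨rfl, fun i hi => ?_⟩
  have h2 : (fun i : Iio δ => s i.1) = fun i : Iio δ => t i.1 := eq_of_heq (Sigma.mk.inj_iff.1 h).2
  exact congrFun h2 ⟨i, hi⟩

section

variable {α : Type} [Countable α] [Nontrivial α]

theorem mk_seq : #(ℕ → α) = 𝔠 := by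
  have h1 : #(ℕ → α) = #α ^ ℵ₀ := by simp
  rw [h1]
  refine le_antisymm ?_ ?_
  · exact (Cardinal.power_le_power_right mk_le_aleph0).trans aleph0_power_aleph0.le
  · rw [← two_power_aleph0]
    exact Cardinal.power_le_power_right (two_le_iff.2 (exists_pair_ne α))

/-- the basic open set given by a finite sequence -/
def cyl (u : List α) : Set (ℕ → α) := {x | ∀ i (h : i < u.length), x i = u[i]}

/-- put the finite sequence `u` in front of `x` -/
def app (u : List α) (x : ℕ → α) : ℕ → α := fun i =>
  if h : i < u.length then u[i] else x (i - u.length)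

omit [Countable α] [Nontrivial α] in
theorem app_mem (u : List α) (x : ℕ → α) : app u x ∈ cyl u := fun i h => by simp [app, h]

omit [Countable α] [Nontrivial α] in
theorem app_inj (u : List α) : Function.Injective (app u) := by
  intro x y h
  funext i
  have := congrFun h (i + u.length)
  simpa [app] using this

theorem mk_cyl (u : List α) : 𝔠 ≤ #(cyl u) := by
  rw [← mk_seq (α := α)]
  exact mk_le_of_injective (f := fun x => (⟨app u x, app_mem u x⟩ : cyl u)) fun x y h =>
    app_inj u (congrArg Subtype.val h)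

variable [TopologicalSpace α] [DiscreteTopology α]

omit [Countable α] [Nontrivial α] [DiscreteTopology α] in
theorem exists_cyl_subset {U : Set (ℕ → α)} (hU : IsOpen U) (hne : U.Nonempty) :
    ∃ u : List α, cyl u ⊆ U := by
  obtain ⟨x, hx⟩ := hne
  obtain ⟨E, v, hv, hs⟩ := isOpen_pi_iff.1 hU x hx
  obtain ⟨N, hN⟩ : ∃ N, ∀ i ∈ E, i < N :=
    ⟨E.sup id + 1, fun i hi => Nat.lt_succ_of_le (Finset.le_sup (f := id) hi)⟩
  refine ⟨(List.range N).map x, fun y hy => hs fun i hi => ?_⟩
  have h1 : i < ((List.range N).map x).length := by simpa using hN i hi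
  have h2 := hy i h1
  simp only [List.getElem_map, List.getElem_range] at h2
  rw [h2]
  exact (hv i hi).2

omit [Nontrivial α] [TopologicalSpace α] [DiscreteTopology α] in
theorem mk_list_le : #(List α) ≤ ℵ₀ := mk_le_aleph0

theorem exists_family : ∃ B : (W → Bool) → Set (ℕ → α), (∀ s, AlephOneDense (B s)) ∧
    ∀ s t, s ≠ t → (B s ∩ B t).Countable := by
  obtain ⟨π, hπ, hπ'⟩ := exists_injective_choice (ι := List α × Node)
    (fun i => (cyl i.1 : Set (ℕ → α))) fun i => by
      refine le_trans ?_ (mk_cyl i.1)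
      rw [mk_prod, lift_id, lift_id]
      refine (mul_le_mul' (mk_list_le.trans aleph0_le_continuum) mk_node_le).trans ?_
      exact continuum_mul_self.le
  refine ⟨fun s => range fun p : List α × W => π (p.1, node s p.2), fun s U hU hne => ?_,
    fun s t hst => ?_⟩
  · refine le_antisymm ?_ ?_
    · refine (mk_le_mk_of_subset inter_subset_left).trans (mk_range_le.trans ?_)
      rw [mk_prod, lift_id, lift_id, mk_W]
      refine (mul_le_mul' mk_list_le le_rfl).trans ?_
      exact (aleph0_mul_eq aleph0_lt_aleph_one.le).le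
    · obtain ⟨u, hu⟩ := exists_cyl_subset hU hne
      rw [← mk_W]
      refine mk_le_of_injective (f := fun δ : W => (⟨π (u, node s δ), ⟨(u, δ), rfl⟩,
        hu (hπ' (u, node s δ))⟩ : ((range fun p : List α × W => π (p.1, node s p.2)) ∩ U :
          Set (ℕ → α)))) ?_
      intro δ ε h
      have h1 : π (u, node s δ) = π (u, node s ε) := congrArg Subtype.val h
      exact (node_inj (congrArg Prod.snd (hπ h1))).1
  · obtain ⟨ρ, hρ⟩ : ∃ ρ, s ρ ≠ t ρ := by
      by_contra hcon
      push Not at hcon
      exact hst (funext hcon)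
    have h1 : ((univ : Set (List α)) ×ˢ Iic ρ).Countable :=
      (countable_univ).prod (countable_Iic ρ)
    refine (h1.image fun p : List α × W => π (p.1, node s p.2)).mono ?_
    rintro _ ⟨⟨⟨u, δ⟩, rfl⟩, ⟨⟨v, ε⟩, h⟩⟩
    refine ⟨(u, δ), ⟨mem_univ _, ?_⟩, rfl⟩
    have h2 := node_inj (congrArg Prod.snd (hπ h))
    rw [mem_Iic]
    by_contra hlt
    rw [not_le] at hlt
    obtain ⟨h3, h4⟩ := h2
    exact hρ (h4 ρ (h3 ▸ hlt)).symm

omit [TopologicalSpace α] [DiscreteTopology α] in
theorem mk_lip_le : #{f : (ℕ → α) → ℕ → α // IsLip f} ≤ 𝔠 := by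
  have a0 : α := Classical.arbitrary α
  have h1 : #(List α → α) ≤ 𝔠 := by
    have : #(List α → α) = #α ^ #(List α) := by simp
    rw [this]
    refine (Cardinal.power_le_power_right mk_le_aleph0).trans ?_
    refine (Cardinal.power_le_power_left aleph0_ne_zero (mk_list_le (α := α))).trans ?_
    exact aleph0_power_aleph0.le
  refine le_trans (mk_le_of_injective (f := fun f : {f : (ℕ → α) → ℕ → α // IsLip f} =>
    fun u : List α => f.1 (app u fun _ => a0) (u.length - 1)) ?_) h1
  intro f g h
  refine Subtype.ext (funext fun x => funext fun k => ?_)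
  let u : List α := (List.range (k + 1)).map x
  have hlen : u.length = k + 1 := by simp [u]
  have hagree : ∀ i < k + 1, x i = app u (fun _ => a0) i := by
    intro i hi
    have hi' : i < u.length := by rw [hlen]; exact hi
    simp [app, u, hi]
  have h2 := f.2 (k + 1) x (app u fun _ => a0) hagree k (Nat.lt_succ_self k)
  have h3 := g.2 (k + 1) x (app u fun _ => a0) hagree k (Nat.lt_succ_self k)
  have h4 := congrFun h u
  simp only [hlen, Nat.add_sub_cancel] at h4
  rw [h2, h3, h4]

theorem powers_of_BALip (h : BALip α) : (2 : Cardinal.{0}) ^ ℵ₀ = 2 ^ (ℵ₁ : Cardinal.{0}) := by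
  obtain ⟨B, hB, hB'⟩ := exists_family (α := α)
  have hA := hB fun _ => false
  choose f hf hf1 hf2 using fun s => h (B fun _ => false) (B s) hA (hB s)
  have hunc : ¬ (B fun _ => false).Countable := by
    intro hc
    have h1 := hA Set.univ isOpen_univ ⟨fun _ => Classical.arbitrary α, mem_univ _⟩
    rw [inter_univ] at h1
    have h2 := hc.le_aleph0
    rw [h1] at h2
    exact absurd h2 (not_le.2 aleph0_lt_aleph_one)
  have hinj : Function.Injective fun s => (⟨f s, hf s⟩ : {f : (ℕ → α) → ℕ → α // IsLip f}) := by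
    intro s t hst
    have h1 : f s = f t := congrArg Subtype.val hst
    by_contra hne
    have h2 : f s '' (B fun _ => false) ⊆ B s ∩ B t := fun y hy => ⟨hf2 s hy, by
      rw [h1] at hy
      exact hf2 t hy⟩
    have h3 : (f s '' (B fun _ => false)).Countable := (hB' s t hne).mono h2
    exact hunc (countable_of_injective_of_countable_image (hf1 s) h3)
  have h4 := (mk_le_of_injective hinj).trans mk_lip_le
  have h5 : #(W → Bool) = 2 ^ (ℵ₁ : Cardinal.{0}) := by
    rw [← mk_W]
    simp
  rw [h5, ← two_power_aleph0] at h4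
  exact le_antisymm (Cardinal.power_le_power_left two_ne_zero aleph0_lt_aleph_one.le) h4

end

/-- Both `BA_Lip(ω^ω)` and `BA_Lip(2^ω)` imply that `2 ^ ℵ₀ = 2 ^ ℵ₁`. -/
theorem result :
    (BALip ℕ → (2 : Cardinal.{0}) ^ ℵ₀ = 2 ^ (ℵ₁ : Cardinal.{0})) ∧
    (BALip Bool → (2 : Cardinal.{0}) ^ ℵ₀ = 2 ^ (ℵ₁ : Cardinal.{0})) :=
  ⟨powers_of_BALip, powers_of_BALip⟩

end Pool.Agent.Results.MP_84ba36_lc.LipPowers
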